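import Pool.Agent.Lib_helper51.EclOwn.Core
import Pool.Agent.Lib_helper51.EclC.Fin

/-!
# Every finite word is the eclipse sequence of a solution of the planar three-body problem

The bodies are numbered `0, 1, 2` (the bodies `1, 2, 3` of the problem); positions are complex
numbers.  For every finite word `w` and every sufficiently small `ε > 0` the planar Newtonian
three-body problem with masses `1/2, 1/2, ε` has a maximal collision-free solution, on a bounded
interval `(0, T)`, which has finitely many eclipses and whose eclipse sequence is exactly `w`.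
-/

set_option autoImplicit false

namespace Pool.Agent.Results.MP_efcf7c_an.AllWordsRealized

open Filter Topology

/-- At the time `t` the three bodies (positions `q a`, velocities `v a`, masses `m a`) are at
distinct points and satisfy Newton's equations
`m_a q_a'' = ∑_{b ≠ a} m_a m_b (q_b - q_a) / |q_b - q_a| ^ 3`. -/
def NewtonAt (m : Fin 3 → ℝ) (q v : Fin 3 → ℝ → ℂ) (t : ℝ) : Prop :=
  (∀ a b : Fin 3, a ≠ b → q a t ≠ q b t) ∧
    ∀ a : Fin 3, HasDerivAt (q a) (v a t) t ∧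
      ∃ A : ℂ, HasDerivAt (v a) A t ∧
        (m a : ℂ) * A = ∑ b ∈ Finset.univ.filter (fun b : Fin 3 => b ≠ a),
          (m a : ℂ) * (m b : ℂ) * (q b t - q a t) / (‖q b t - q a t‖ : ℂ) ^ 3

/-- `(q, v)` is a collision-free solution on the open interval `(α, ω)`,
`-∞ ≤ α < ω ≤ +∞`. -/
def IsSolution (m : Fin 3 → ℝ) (α ω : EReal) (q v : Fin 3 → ℝ → ℂ) : Prop :=
  α < ω ∧ ∀ t : ℝ, α < (t : EReal) → (t : EReal) < ω → NewtonAt m q v t

/-- `(q, v)` is a maximal collision-free solution, with maximal interval of existence `(α, ω)`: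
no collision-free solution on a larger open interval agrees with it on `(α, ω)`. -/
def IsMaximalSolution (m : Fin 3 → ℝ) (α ω : EReal) (q v : Fin 3 → ℝ → ℂ) : Prop :=
  IsSolution m α ω q v ∧
    ∀ (α' ω' : EReal) (q' v' : Fin 3 → ℝ → ℂ), α' ≤ α → ω ≤ ω' → IsSolution m α' ω' q' v' →
      (∀ t : ℝ, α < (t : EReal) → (t : EReal) < ω → ∀ a, q' a t = q a t) → α' = α ∧ ω' = ω

/-- `t` is an eclipse of the motion `q` on `(α, ω)`: the three positions are collinear. -/
def IsEclipse (α ω : EReal) (q : Fin 3 → ℝ → ℂ) (t : ℝ) : Prop :=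
  α < (t : EReal) ∧ (t : EReal) < ω ∧ Collinear ℝ ({q 0 t, q 1 t, q 2 t} : Set ℂ)

/-- At the time `t` the body `a` lies strictly between the two other bodies, on one line with
them. -/
def InMiddle (q : Fin 3 → ℝ → ℂ) (t : ℝ) (a : Fin 3) : Prop :=
  ∀ b c : Fin 3, b ≠ a → c ≠ a → b ≠ c → Sbtw ℝ (q b t) (q a t) (q c t)

/-- The motion `q` on `(α, ω)` has finitely many eclipses and its eclipse sequence is exactly
`w`: its eclipses are `τ 0 < τ 1 < ... < τ (n - 1)`, where `n` is the length of `w`, and the body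
in the middle at the time `τ i` is the letter `w i`. -/
def HasEclipseSequence (α ω : EReal) (q : Fin 3 → ℝ → ℂ) (w : List (Fin 3)) : Prop :=
  ∃ τ : Fin w.length → ℝ, StrictMono τ ∧ (∀ t : ℝ, IsEclipse α ω q t ↔ ∃ i, τ i = t) ∧
    ∀ i, InMiddle q (τ i) (w.get i)

/-- Twice the oriented area of the triangle formed by the bodies. -/
noncomputable def area (q : Fin 3 → ℝ → ℂ) (t : ℝ) : ℝ :=
  ((starRingEnd ℂ) (q 1 t - q 0 t) * (q 2 t - q 0 t)).im

/-- **Every finite word is realised.**  For every finite word `w` there is `ε₀ > 0` such that for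
every `0 < ε < ε₀` the planar three-body problem with masses `1/2, 1/2, ε` has a maximal
collision-free solution, with a bounded interval of existence `(0, T)`, which has finitely many
eclipses and whose eclipse sequence is exactly `w`.  Moreover every eclipse is transversal (the
oriented area has a simple zero), and at both ends of the interval the light body collides with
one of the two heavy ones. -/
theorem result (w : List (Fin 3)) :
    ∃ ε₀ : ℝ, 0 < ε₀ ∧ ∀ ε : ℝ, 0 < ε → ε < ε₀ →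
      ∃ (T : ℝ) (q v : Fin 3 → ℝ → ℂ),
        IsMaximalSolution ![1 / 2, 1 / 2, ε] ((0 : ℝ) : EReal) (T : EReal) q v ∧
        HasEclipseSequence ((0 : ℝ) : EReal) (T : EReal) q w ∧
        (∀ t : ℝ, IsEclipse ((0 : ℝ) : EReal) (T : EReal) q t →
          ∃ d : ℝ, d ≠ 0 ∧ HasDerivAt (area q) d t) ∧
        (∃ b : Fin 3, b ≠ 2 ∧ Tendsto (fun t => q 2 t - q b t) (𝓝[>] 0) (𝓝 0)) ∧
        (∃ b : Fin 3, b ≠ 2 ∧ Tendsto (fun t => q 2 t - q b t) (𝓝[<] T) (𝓝 0)) := by
  obtain ⟨ε₀, hε₀, H⟩ := EclOwn.own_core Ecl.statementI w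
  refine ⟨ε₀, hε₀, fun ε hε hε' => ?_⟩
  obtain ⟨T, q, v, hT, hN, hlim0, hlimT, τ, hτm, hτin, hτall, hτcol, hτb, hτd⟩ := H ε hε hε'
  have hio : ∀ t : ℝ, ((0 : ℝ) : EReal) < (t : EReal) → (t : EReal) < (T : EReal) →
      0 < t ∧ t < T := fun t h1 h2 => ⟨EReal.coe_lt_coe_iff.1 h1, EReal.coe_lt_coe_iff.1 h2⟩
  have hecl : ∀ t : ℝ, IsEclipse ((0 : ℝ) : EReal) (T : EReal) q t ↔ ∃ i, τ i = t := by
    intro t
    constructor
    · rintro ⟨h1, h2, h3⟩
      exact hτall t (hio t h1 h2).1 (hio t h1 h2).2 h3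
    · rintro ⟨i, rfl⟩
      exact ⟨EReal.coe_lt_coe_iff.2 (hτin i).1, EReal.coe_lt_coe_iff.2 (hτin i).2, hτcol i⟩
  have hIoi : ∀ᶠ t in 𝓝[>] (0 : ℝ), t ∈ Set.Ioo 0 T := Ioo_mem_nhdsGT hT
  have hIio : ∀ᶠ t in 𝓝[<] T, t ∈ Set.Ioo 0 T := Ioo_mem_nhdsLT hT
  refine ⟨T, q, v, ⟨⟨EReal.coe_lt_coe_iff.2 hT, ?_⟩, ?_⟩, ⟨τ, hτm, hecl, ?_⟩, ?_,
    ⟨1, by decide, hlim0⟩, hlimT⟩
  · -- Newton's equations
    intro t h1 h2
    obtain ⟨hne, hd⟩ := hN t (hio t h1 h2).1 (hio t h1 h2).2
    refine ⟨hne, fun a => ⟨(hd a).1, _, (hd a).2, ?_⟩⟩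
    have hm : Ecl.mm ε = ![1 / 2, 1 / 2, ε] := rfl
    have hfil : (Finset.univ : Finset (Fin 3)).erase a = Finset.univ.filter (fun b => b ≠ a) := by
      ext b; simp
    unfold Ecl.acc
    rw [hm, hfil, Finset.mul_sum]
    refine Finset.sum_congr rfl fun b _ => ?_
    push_cast
    ring
  · -- maximality
    intro α' ω' q' v' hα hω hsol hagree
    have hagree' : ∀ t ∈ Set.Ioo 0 T, ∀ a, q' a t = q a t := fun t htt =>
      hagree t (EReal.coe_lt_coe_iff.2 htt.1) (EReal.coe_lt_coe_iff.2 htt.2)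
    constructor
    · by_contra hne
      have hlt : α' < ((0 : ℝ) : EReal) := lt_of_le_of_ne hα hne
      have hlt2 : ((0 : ℝ) : EReal) < ω' := lt_of_lt_of_le (EReal.coe_lt_coe_iff.2 hT) hω
      obtain ⟨hne', hder⟩ := hsol.2 0 hlt hlt2
      have hc2 : Tendsto (q' 2) (𝓝[>] 0) (𝓝 (q' 2 0)) :=
        (hder 2).1.continuousAt.tendsto.mono_left nhdsWithin_le_nhds
      have hc1 : Tendsto (q' 1) (𝓝[>] 0) (𝓝 (q' 1 0)) :=
        (hder 1).1.continuousAt.tendsto.mono_left nhdsWithin_le_nhds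
      have h3 : Tendsto (fun t => q' 2 t - q' 1 t) (𝓝[>] 0) (𝓝 0) := by
        refine hlim0.congr' ?_
        filter_upwards [hIoi] with t htt
        rw [hagree' t htt, hagree' t htt]
      have h4 := tendsto_nhds_unique (hc2.sub hc1) h3
      exact hne' 2 1 (by decide) (sub_eq_zero.1 h4)
    · by_contra hne
      have hlt : (T : EReal) < ω' := lt_of_le_of_ne hω (Ne.symm hne)
      have hlt2 : α' < (T : EReal) := lt_of_le_of_lt hα (EReal.coe_lt_coe_iff.2 hT)
      obtain ⟨hne', hder⟩ := hsol.2 T hlt2 hlt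
      obtain ⟨b, hb, hlimb⟩ := hlimT
      have hc2 : Tendsto (q' 2) (𝓝[<] T) (𝓝 (q' 2 T)) :=
        (hder 2).1.continuousAt.tendsto.mono_left nhdsWithin_le_nhds
      have hc1 : Tendsto (q' b) (𝓝[<] T) (𝓝 (q' b T)) :=
        (hder b).1.continuousAt.tendsto.mono_left nhdsWithin_le_nhds
      have h3 : Tendsto (fun t => q' 2 t - q' b t) (𝓝[<] T) (𝓝 0) := by
        refine hlimb.congr' ?_
        filter_upwards [hIio] with t htt
        rw [hagree' t htt, hagree' t htt]
      have h4 := tendsto_nhds_unique (hc2.sub hc1) h3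
      exact hne' 2 b (Ne.symm hb) (sub_eq_zero.1 h4)
  · intro i b c hb hc hbc
    exact hτb i b c hb hc hbc
  · intro t ht
    obtain ⟨i, rfl⟩ := (hecl t).1 ht
    exact hτd i

end Pool.Agent.Results.MP_efcf7c_an.AllWordsRealized
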